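import Pool.Agent.U107.CR.P

/-!
# Connected Ramsey numbers of paths versus the triangle

A connected graph without three independent vertices has a path through all its vertices: a path
which misses a vertex can be extended at an end, or its ends are adjacent and it can be opened at
the neighbour of a missed vertex.
-/

set_option autoImplicit false

namespace Pool.Agent.Results.MP_5ec5e0_co.PathsVersusTriangle

open Pool.Agent.U107.CR

/-- `cr(P_m, K_3) = max(4, m)` for all `m`. -/
theorem result (m : ℕ) : cr (path m) (⊤ : SimpleGraph (Fin 3)) = max 4 m := cr_path m

end Pool.Agent.Results.MP_5ec5e0_co.PathsVersusTriangle
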