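import Pool.Agent.U107.CR.C

/-!
# Connected Ramsey numbers of stars and once subdivided stars

(1) In a totally connected graph every vertex has a vertex at distance exactly two.  Hence a
totally connected graph which contains a star also contains the star with one subdivided edge.
(2) For stars with `k ≥ 4` edges the upper bound is Brooks' theorem (the library proof of it), and
the lower bound is a chain of `n - 1` cliques with `k - 1` vertices.
(3) For the claw: a longest path of a connected graph of maximum degree two is spanning, every
second vertex of it is independent; the lower bound is the cycle with `2 n - 1` vertices.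
-/

set_option autoImplicit false

namespace Pool.Agent.Results.MP_5ec5e0_co.StarsAndSubdividedStars

open Pool.Agent.U107.CR

/-- The connected Ramsey numbers `cr(K_{1,k}, K_n)` for all `k` and `n`, and
`cr(K_{1,k}', H) = cr(K_{1,k}, H)` for every graph `H`, where `K_{1,k}'` is the star with `k ≥ 1`
edges, one of them subdivided. -/
theorem result :
    (∀ (B : Type) (H : SimpleGraph B) (k : ℕ), 1 ≤ k → cr (spur k) H = cr (star k) H) ∧
    (∀ k n : ℕ, k ≤ 2 ∨ n ≤ 2 → cr (star k) (⊤ : SimpleGraph (Fin n)) = 4) ∧
    (∀ n : ℕ, 3 ≤ n → cr (star 3) (⊤ : SimpleGraph (Fin n)) = 2 * n) ∧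
    (∀ k n : ℕ, 4 ≤ k → 3 ≤ n →
      cr (star k) (⊤ : SimpleGraph (Fin n)) = (k - 1) * (n - 1) + 1) :=
  ⟨fun _ H _ hk => cr_spur H hk, fun _ _ h => cr_small h, fun _ hn => cr_claw hn,
    fun _ _ hk hn => cr_star hk hn⟩

end Pool.Agent.Results.MP_5ec5e0_co.StarsAndSubdividedStars
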