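import Pool.Agent.U107.CR.E

/-!
# Bounds for the connected Ramsey numbers of all trees versus complete graphs

Upper bound: a totally connected graph with more than `(m - 2)(n - 1)` vertices without `n`
independent vertices has no colouring with `m - 2` colours.  In a minimal set of vertices without
such a colouring all degrees are at least `m - 2`; if some degree is at least `m - 1`, the tree
is embedded greedily, the neighbour of a leaf at that vertex and the leaf last.  Otherwise Brooks'
theorem gives a clique with `m - 1` vertices, and an edge which leaves it takes the leaf.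
Lower bounds: a chain of cliques, and cliques joined to a hub.
-/

set_option autoImplicit false

namespace Pool.Agent.Results.MP_5ec5e0_co.TreeBounds

open Pool.Agent.U107.CR

/-- For a tree `T` with `m ≥ 5` vertices and `n ≥ 3`: `cr(T, K_n) ≤ (m - 2)(n - 1) + 1`;
`cr(T, K_n) ≥ (d - 1)(n - 1) + 1` for every vertex degree `d ≥ 4` of `T`; and
`cr(T, K_n) ≥ b (n - 1) + 2` if `b ≥ 2` and for every vertex `x` of `T` some connected set of more
than `b` vertices avoids `x`. -/
theorem result (A : Type) [Fintype A] (T : SimpleGraph A) (hT : T.IsTree)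
    (hm : 5 ≤ Fintype.card A) (n : ℕ) (hn : 3 ≤ n) :
    cr T (⊤ : SimpleGraph (Fin n)) ≤ (Fintype.card A - 2) * (n - 1) + 1 ∧
    (∀ x : A, 4 ≤ (T.neighborSet x).ncard →
      ((T.neighborSet x).ncard - 1) * (n - 1) + 1 ≤ cr T (⊤ : SimpleGraph (Fin n))) ∧
    (∀ b : ℕ, 2 ≤ b → Heavy T b → b * (n - 1) + 2 ≤ cr T (⊤ : SimpleGraph (Fin n))) := by
  classical
  have hup := tree_upper T hT hm hn
  have h2 : 3 * 2 ≤ (Fintype.card A - 2) * (n - 1) := Nat.mul_le_mul (by omega) (by omega)
  have hmem : (Fintype.card A - 2) * (n - 1) + 1 ∈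
      {k | 4 ≤ k ∧ Arrow T (⊤ : SimpleGraph (Fin n)) k} := ⟨by omega, hup⟩
  have hcr : Arrow T (⊤ : SimpleGraph (Fin n)) (cr T (⊤ : SimpleGraph (Fin n))) :=
    (Nat.sInf_mem ⟨_, hmem⟩).2
  refine ⟨Nat.sInf_le hmem, ?_, ?_⟩
  · intro x hx
    by_contra hlt
    push Not at hlt
    have hstar : Sub (star (T.neighborSet x).ncard) T := by
      have hc : (T.neighborSet x).toFinset.card = (T.neighborSet x).ncard :=
        (Set.ncard_eq_toFinset_card' _).symm
      let e := (Finset.equivFinOfCardEq hc).symm
      refine sub_star T _ x (fun i => (e i : A)) (fun a b hab => e.injective (Subtype.ext hab)) ?_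
      intro i
      have := (e i).2
      rw [Set.mem_toFinset] at this
      exact this
    exact not_arrow hx hn hstar (hcr.mono (by omega))
  · intro b hb hH
    by_contra hlt
    push Not at hlt
    haveI : Nonempty A := hT.1.nonempty
    exact not_arrow_hub this hb hn hH (hcr.mono (by omega))

end Pool.Agent.Results.MP_5ec5e0_co.TreeBounds
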