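import Pool.Agent.U107.CR.G

/-!
# Trees versus the triangle: a lower bound from gaps in the sizes of the components

Two cliques with `m - i` and `j` vertices, joined by one edge: a copy of the tree would have
exactly one edge between its two parts, and the part in the second clique has between `i` and `j`
vertices.
-/

set_option autoImplicit false

namespace Pool.Agent.Results.MP_5ec5e0_co.TriangleGapBound

open Pool.Agent.U107.CR

/-- Let `T` be a tree with `m ≥ 5` vertices and let `2 ≤ i ≤ j ≤ m - i` such that for no edge `e`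
of `T` the graph `T - e` has a component whose size lies between `i` and `j`. Then
`cr(T, K_3) ≥ m + (j - i) + 1`. -/
theorem result (A : Type) [Fintype A] (T : SimpleGraph A) (hT : T.IsTree)
    (hm : 5 ≤ Fintype.card A) (i j : ℕ) (hi : 2 ≤ i) (hij : i ≤ j) (hj : i + j ≤ Fintype.card A)
    (hgap : ∀ S : Finset A, i ≤ S.card → S.card ≤ j → ¬ OneEdge T S) :
    Fintype.card A + (j - i) + 1 ≤ cr T (⊤ : SimpleGraph (Fin 3)) := by
  have hup := tree_upper T hT hm (le_refl 3)
  have hmem : (Fintype.card A - 2) * (3 - 1) + 1 ∈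
      {k | 4 ≤ k ∧ Arrow T (⊤ : SimpleGraph (Fin 3)) k} := ⟨by omega, hup⟩
  have hcr : Arrow T (⊤ : SimpleGraph (Fin 3)) (cr T (⊤ : SimpleGraph (Fin 3))) :=
    (Nat.sInf_mem ⟨_, hmem⟩).2
  by_contra hlt
  push Not at hlt
  exact gap_lower T hT.1 hi hij hj hgap (hcr.mono (by omega))

end Pool.Agent.Results.MP_5ec5e0_co.TriangleGapBound
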